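import Pool.Agent.H31.TD

namespace Pool.Agent.Results.MP_6ebba1_al.Main

open Pool.Agent.H31.TD

theorem result : ∃ (A B S : Module.End ℝ (ℂ × ℂ)) (θ η : Fin (1 + 1) → ℝ),
    Ord A B θ ∧ Ord B A η ∧ Irr A B ∧ Adm A B S θ η ∧ ¬Diag S :=
  ⟨A, B, S, _, _, main⟩

end Pool.Agent.Results.MP_6ebba1_al.Main
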